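import Pool.Agent.W223.RA.Stms

/-! PRT: a light set or a large element. -/

set_option autoImplicit false

namespace Pool.Agent.W479.RA

open Finset Pool.Agent.W223.RA

/-- sum over a class -/
noncomputable def cs (T : Finset ℕ) (w : ℕ → ℝ) (f : ℕ → ℕ) (a : ℕ) : ℝ :=
  ∑ p ∈ T.filter (fun p => f p = a), w p

theorem sum_cs (T : Finset ℕ) (w : ℕ → ℝ) (f : ℕ → ℕ) :
    ∑ a ∈ T.image f, cs T w f a = ∑ p ∈ T, w p := by
  unfold cs
  exact Finset.sum_fiberwise_of_maps_to (fun x hx => Finset.mem_image_of_mem f hx) w

/-- a colouring with light classes and few colours -/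
theorem colour (T : Finset ℕ) (w : ℕ → ℝ) (M : ℝ) (hw : ∀ p ∈ T, w p ≤ M) (hM : 0 ≤ M) :
    ∃ f : ℕ → ℕ, (∀ a, cs T w f a ≤ M) ∧ ∀ a ∈ T.image f, ∀ b ∈ T.image f, a ≠ b →
      M ≤ cs T w f a + cs T w f b := by
  classical
  have hex : ∃ n : ℕ, ∃ f : ℕ → ℕ, (∀ a, cs T w f a ≤ M) ∧ (T.image f).card = n := by
    refine ⟨_, fun p => p, fun a => ?_, rfl⟩
    unfold cs
    by_cases ha : a ∈ T
    · have : T.filter (fun p => p = a) = {a} := by
        ext p
        simp only [Finset.mem_filter, Finset.mem_singleton]
        exact ⟨fun h => h.2, fun h => ⟨h ▸ ha, h⟩⟩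
      rw [this, Finset.sum_singleton]
      exact hw a ha
    · have : T.filter (fun p => p = a) = ∅ := by
        rw [Finset.filter_eq_empty_iff]
        rintro p hp rfl
        exact ha hp
      rw [this, Finset.sum_empty]
      exact hM
  obtain ⟨f, hf, hcard⟩ := Nat.find_spec hex
  refine ⟨f, hf, fun a ha b hb hab => ?_⟩
  by_contra hcon
  push Not at hcon
  let g : ℕ → ℕ := fun p => if f p = a then b else f p
  have hsub : T.image g ⊆ (T.image f).erase a := by
    intro c hc
    obtain ⟨p, hp, rfl⟩ := Finset.mem_image.1 hc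
    rw [Finset.mem_erase]
    by_cases h : f p = a
    · have hg : g p = b := if_pos h
      rw [hg]; exact ⟨hab.symm, hb⟩
    · have hg : g p = f p := if_neg h
      rw [hg]; exact ⟨h, Finset.mem_image_of_mem f hp⟩
  have hlt : (T.image g).card < Nat.find hex := by
    rw [← hcard]
    refine (Finset.card_le_card hsub).trans_lt ?_
    exact Finset.card_erase_lt_of_mem ha
  refine Nat.find_min hex hlt ⟨g, fun c => ?_, rfl⟩
  by_cases hca : c = a
  · have : T.filter (fun p => g p = c) = ∅ := by
      rw [Finset.filter_eq_empty_iff]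
      intro p _ hp
      by_cases h : f p = a
      · have hg : g p = b := if_pos h
        rw [hg, hca] at hp; exact hab hp.symm
      · have hg : g p = f p := if_neg h
        rw [hg, hca] at hp; exact h hp
    unfold cs
    rw [this, Finset.sum_empty]; exact hM
  · by_cases hcb : c = b
    · have h1 : cs T w g c = cs T w f a + cs T w f b := by
        unfold cs
        rw [← Finset.sum_union]
        · congr 1
          ext p
          simp only [Finset.mem_filter, Finset.mem_union]
          by_cases h : f p = a
          · have hg : g p = b := if_pos h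
            rw [hg, h, hcb]
            constructor
            · rintro ⟨h', _⟩
              exact Or.inl ⟨h', rfl⟩
            · rintro (h' | h')
              · exact ⟨h'.1, rfl⟩
              · exact ⟨h'.1, rfl⟩
          · have hg : g p = f p := if_neg h
            rw [hg, hcb]
            constructor
            · exact fun h' => Or.inr h'
            · rintro (h' | h')
              · exact absurd h'.2 h
              · exact h'
        · rw [Finset.disjoint_left]
          intro p hp hp'
          rw [Finset.mem_filter] at hp hp'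
          exact hab (hp.2.symm.trans hp'.2)
      rw [h1]; exact hcon.le
    · have h1 : cs T w g c = cs T w f c := by
        unfold cs
        congr 1
        ext p
        simp only [Finset.mem_filter]
        by_cases h : f p = a
        · have hg : g p = b := if_pos h
          rw [hg, h]
          exact ⟨fun h' => absurd h'.2.symm hcb, fun h' => absurd h'.2.symm hca⟩
        · have hg : g p = f p := if_neg h
          rw [hg]
      rw [h1]; exact hf c

theorem tPRT : StmtPRT := by
  classical
  intro P θ w L ρ hL hρ0 hρ1 hP hθ hw hsum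
  set B := P.filter (fun p => 7 / 8 * L < w p) with hB
  set T := P.filter (fun p => ¬ 7 / 8 * L < w p) with hT
  have hBT : ∑ p ∈ B, θ p + ∑ p ∈ T, θ p = ∑ p ∈ P, θ p :=
    Finset.sum_filter_add_sum_filter_not P _ _
  have hBT' : ∑ p ∈ B, w p + ∑ p ∈ T, w p = ∑ p ∈ P, w p :=
    Finset.sum_filter_add_sum_filter_not P _ _
  have hPθ : 0 ≤ ∑ p ∈ P, θ p := Finset.sum_nonneg hθ
  have hTw : 0 ≤ ∑ p ∈ T, w p := Finset.sum_nonneg fun p hp => hw p (Finset.mem_filter.1 hp).1
  have hBw : 0 ≤ ∑ p ∈ B, w p := Finset.sum_nonneg fun p hp => hw p (Finset.mem_filter.1 hp).1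
  by_cases hcase : (1 - ρ) * ∑ p ∈ P, θ p ≤ ∑ p ∈ B, θ p
  · right
    by_cases hBe : B.Nonempty
    · by_contra hcon
      push Not at hcon
      have h1 : ∑ p ∈ B, θ p < ∑ _p ∈ B, (1 - ρ) / 3 * ∑ p ∈ P, θ p :=
        Finset.sum_lt_sum_of_nonempty hBe fun p hp => hcon p (Finset.mem_filter.1 hp).1
      rw [Finset.sum_const, nsmul_eq_mul] at h1
      have h2 : (B.card : ℝ) * (7 / 8 * L) ≤ ∑ p ∈ B, w p := by
        rw [← nsmul_eq_mul]
        exact Finset.card_nsmul_le_sum B w _ fun p hp => (Finset.mem_filter.1 hp).2.le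
      have h3 : (B.card : ℝ) ≤ 3 := by
        have h4 : B.card ≤ 3 := by
          by_contra h5
          push Not at h5
          have h6 : (4 : ℝ) ≤ B.card := by exact_mod_cast h5
          have h7 : 4 * (7 / 8 * L) ≤ (B.card : ℝ) * (7 / 8 * L) :=
            mul_le_mul_of_nonneg_right h6 (by positivity)
          linarith
        exact_mod_cast h4
      have h4 : (B.card : ℝ) * ((1 - ρ) / 3 * ∑ p ∈ P, θ p) ≤
          3 * ((1 - ρ) / 3 * ∑ p ∈ P, θ p) :=
        mul_le_mul_of_nonneg_right h3 (mul_nonneg (by linarith) hPθ)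
      linarith
    · rw [Finset.not_nonempty_iff_eq_empty] at hBe
      rw [hBe, Finset.sum_empty] at hcase
      obtain ⟨p, hp⟩ := hP
      refine ⟨p, hp, ?_⟩
      have := hθ p hp
      linarith
  · left
    push Not at hcase
    have hTθ : ρ * ∑ p ∈ P, θ p ≤ ∑ p ∈ T, θ p := by linarith
    have hTθ0 : 0 ≤ ∑ p ∈ T, θ p := Finset.sum_nonneg fun p hp => hθ p (Finset.mem_filter.1 hp).1
    obtain ⟨f, hf1, hf2⟩ := colour T w (7 / 8 * L)
      (fun p hp => not_lt.1 (Finset.mem_filter.1 hp).2) (by positivity)
    set C := T.image f with hC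
    by_cases hCe : C.Nonempty
    · -- number of colours
      have hk : (C.card : ℝ) ≤ 7 := by
        by_cases h2 : 2 ≤ C.card
        · have h3 : ∑ a ∈ C, ∑ b ∈ C.erase a, (7 / 8 * L) ≤
              ∑ a ∈ C, ∑ b ∈ C.erase a, (cs T w f a + cs T w f b) :=
            Finset.sum_le_sum fun a ha => Finset.sum_le_sum fun b hb =>
              hf2 a ha b (Finset.mem_of_mem_erase hb) (Finset.ne_of_mem_erase hb).symm
          have hcard : ∀ a ∈ C, ((C.erase a).card : ℝ) = C.card - 1 := by
            intro a ha
            rw [Finset.card_erase_of_mem ha, Nat.cast_sub (by omega)]; simp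
          have h4 : ∑ a ∈ C, ∑ b ∈ C.erase a, (7 / 8 * L) =
              (C.card : ℝ) * ((C.card - 1) * (7 / 8 * L)) := by
            rw [← nsmul_eq_mul, ← Finset.sum_const]
            refine Finset.sum_congr rfl fun a ha => ?_
            rw [Finset.sum_const, nsmul_eq_mul, hcard a ha]
          have h5 : ∑ a ∈ C, ∑ b ∈ C.erase a, (cs T w f a + cs T w f b) =
              2 * (C.card - 1) * ∑ p ∈ T, w p := by
            have h6 : ∀ a ∈ C, ∑ b ∈ C.erase a, (cs T w f a + cs T w f b) =
                (C.card - 2) * cs T w f a + ∑ p ∈ T, w p := by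
              intro a ha
              rw [Finset.sum_add_distrib, Finset.sum_const, nsmul_eq_mul, hcard a ha,
                ← sum_cs T w f, ← Finset.add_sum_erase C (cs T w f) ha]
              ring
            rw [Finset.sum_congr rfl h6, Finset.sum_add_distrib, ← Finset.mul_sum,
              sum_cs T w f, Finset.sum_const, nsmul_eq_mul]
            ring
          rw [h4, h5] at h3
          have h6 : (2 : ℝ) ≤ C.card := by exact_mod_cast h2
          have h7 : 0 < (C.card : ℝ) - 1 := by linarith
          have h8 : (C.card : ℝ) * (7 / 8 * L) ≤ 2 * ∑ p ∈ T, w p := by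
            have h9 : ((C.card : ℝ) - 1) * ((C.card : ℝ) * (7 / 8 * L)) ≤
                ((C.card : ℝ) - 1) * (2 * ∑ p ∈ T, w p) := by linarith
            exact le_of_mul_le_mul_left h9 h7
          have h10 : (C.card : ℝ) * (7 / 8 * L) ≤ 7 * (7 / 8 * L) := by linarith
          exact le_of_mul_le_mul_right h10 (by positivity)
        · push Not at h2
          have : C.card ≤ 7 := by omega
          exact_mod_cast this
      have hex : ∃ a ∈ C, 1 / 7 * ∑ p ∈ T, θ p ≤ cs T θ f a := by
        by_contra hcon
        push Not at hcon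
        have h1 := Finset.sum_lt_sum_of_nonempty hCe hcon
        rw [sum_cs T θ f, Finset.sum_const, nsmul_eq_mul] at h1
        have h2 : (C.card : ℝ) * (1 / 7 * ∑ p ∈ T, θ p) ≤ 7 * (1 / 7 * ∑ p ∈ T, θ p) :=
          mul_le_mul_of_nonneg_right hk (by positivity)
        linarith
      obtain ⟨a, _, ha⟩ := hex
      refine ⟨T.filter (fun p => f p = a), ?_, hf1 a, ?_⟩
      · exact (Finset.filter_subset _ _).trans (Finset.filter_subset _ _)
      · have : cs T θ f a = ∑ p ∈ T.filter (fun p => f p = a), θ p := rfl
        rw [← this]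
        linarith
    · rw [Finset.not_nonempty_iff_eq_empty, hC, Finset.image_eq_empty] at hCe
      refine ⟨∅, Finset.empty_subset _, ?_, ?_⟩
      · rw [Finset.sum_empty]; positivity
      · rw [hCe, Finset.sum_empty] at hTθ
        rw [Finset.sum_empty]
        linarith

end Pool.Agent.W479.RA
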